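import Pool.Agent.Lib.MP_1c0d65_gt.Pi.Top1
import Pool.Agent.Lib.MP_1c0d65_gt.PW.Ex2
import Pool.Agent.Lib.MP_1c0d65_gt.E.Dual

/-! A manifold with enough embedded spheres is simply connected. -/

set_option autoImplicit false
set_option linter.unusedSectionVars false

open scoped Manifold ContDiff Topology
open Set MeasureTheory Filter Metric Function

noncomputable section

namespace Pool.Agent.Lib.MP_1c0d65_gt.PW

variable {X : Type} [TopologicalSpace X] [ChartedSpace E X] [IsManifold 𝓘(ℝ, E) ∞ X]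
  [T2Space X] [CompactSpace X] [MeasurableSpace X] [BorelSpace X] {c : Ctx X}
  {g : (X → Bil E ℝ) → ℝ} {m : ℕ} {J : X → E →L[ℝ] E} {hJ : Tame univ c.om J}

theorem sc_of_allFlat [ConnectedSpace X] (H : Flat.AllFlat X) : SimplyConnectedSpace X := by
  have := ChartedSpace.locallyPathConnectedSpace E X
  have : PathConnectedSpace X := .of_locallyPathConnectedSpace
  choose r hr hb using fun x : X => Metric.isOpen_iff.1 (chartAt E x).open_target _
    (mem_chart_target E x)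
  let V : X → Set X := fun x => (chartAt E x).symm '' ball (chartAt E x x) (r x)
  have hs : ∀ x, IsSimplyConnected (V x) := fun x => by
    have := (convex_ball (chartAt E x x) (r x)).contractibleSpace (nonempty_ball.2 (hr x))
    have := ((chartAt E x).symm.homeomorphOfImageSubsetSource (hb x) rfl).symm.contractibleSpace
    exact SimplyConnectedSpace.ofContractible _
  have hx : ∀ x, x ∈ V x := fun x => ⟨_, mem_ball_self (hr x), par_self x⟩
  refine H.simplyConnected V (fun x => (chartAt E x).symm.isOpen_image_of_subset_source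
    isOpen_ball (hb x)) hx (fun x z hz => (hs x).isPathConnected.joinedIn x (hx x) z hz)
    fun x a b δ δ' h h' => ?_
  have := (hs x).simplyConnectedSpace
  let f : ∀ δ : Path a b, (∀ t, δ t ∈ V x) → Path (⟨a, δ'.source ▸ h' 0⟩ : V x) ⟨b, δ'.target ▸ h' 1⟩ :=
    fun δ h => ⟨⟨fun t => ⟨δ t, h t⟩, δ.continuous.subtype_mk _⟩, Subtype.ext δ.source,
      Subtype.ext δ.target⟩
  exact (SimplyConnectedSpace.paths_homotopic (f δ h) (f δ' h')).map ⟨_, continuous_subtype_val⟩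

theorem TC.contv (C : TC c J hJ) : Continuous C.v := continuous_iff_continuousAt.2 fun s => by
  by_cases h : s = 0
  · exact h ▸ C.smv.self_of_nhds.continuousAt
  · exact (C.cont.continuousAt.comp (continuousAt_inv₀ h)).congr
      ((eventually_ne_nhds h).mono fun t ht => (C.uv t ht).symm)

theorem TC.compact (C : TC c J hJ) : IsCompact C.img := by
  rw [C.img_eq, Flat.sphere_eq C.uv]
  exact ((isCompact_closedBall _ _).image C.cont).union ((isCompact_closedBall _ _).image C.contv)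

theorem TC.conn (C : TC c J hJ) : IsPreconnected C.img := by
  rw [C.img_eq, Flat.sphere_eq C.uv]
  exact IsPreconnected.union (C.u 1) ⟨1, by simp, rfl⟩ ⟨1, by simp, by rw [C.uv 1 one_ne_zero, inv_one]⟩
    ((convex_closedBall _ _).isPreconnected.image _ C.cont.continuousOn)
    ((convex_closedBall _ _).isPreconnected.image _ C.contv.continuousOn)

theorem TC.lift {C : TC c J hJ} (h : C.Emb) {Y : Type} [TopologicalSpace Y] {π : Y → X}
    (cov : IsCoveringMap π) : Flat.Lift π C.img := by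
  rw [C.img_eq]
  refine Flat.lift_sphere cov C.cont C.contv C.uv (TC.inj h) fun ⟨s, e⟩ => h.2.1 ⟨s, ?_, e⟩
  rw [C.F_eq]
  simp

/-- Disjoint spheres have intersection number zero. -/
theorem Tools.per_disj (T : Tools c) (C C' : TC c J hJ) (h : C.Simple) (h' : C'.Simple) {η}
    (hη : c.Dl (per C.u) η) (hd : Disjoint C.img C'.img) : per C'.u η = 0 := by
  obtain ⟨ι, j, hm⟩ := C.exists_mon
  obtain ⟨Ω, hΩ⟩ := exists_canF (Orb.triv c J hJ)
  obtain ⟨B, h1, h2, h3⟩ := C.exists_bad h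
  have hW : ∀ x ∈ B, x ∈ (Orb.triv c J hJ).W := fun x hx => C.img_subset_W (h1 hx)
  obtain ⟨S, hS⟩ := exists_sites_of h hm hΩ hW h2 h3 fun b => Classical.choice (by
    obtain ⟨U, u1, u2, -, u3, u4⟩ := hΩ b (hW b b.2)
    exact C.exists_site h (hW b b.2) u1 u2 u3 u4)
  obtain ⟨Λ⟩ := S.S.exists_cur
  have hD := S.dual Λ
  have sub : C'.img ⊆ (C.img ∪ S.D.B)ᶜ := fun x hx => by
    rw [S.hB, hS]
    rintro (e | e | e)
    exacts [disjoint_left.1 hd e hx, C'.img_subset_W hx e, disjoint_left.1 hd (h1 e) hx]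
  have key := C'.per_res hD.1.1 (Or.inl hD.2.1) S.D.isClosed.isOpen_compl Λ.dpot ∅ (r := fun _ => 0)
    (fun s _ => have : s ∉ C'.F := by rw [C'.F_eq]; simp
      ⟨this, sub (Or.inl ⟨s, this, rfl⟩)⟩) (by simp)
    (res_zero C'.smv.self_of_nhds S.D.isClosed.isOpen_compl (sub (Or.inr rfl)) Λ.dpot.sm1)
  obtain ⟨ξ, hξ, -⟩ := T.int J hJ C' h'
  rw [← hξ.2 _ hη.1, T.symm hξ.1 hη.1, hη.2 _ hξ.1, ← hD.2.2.1 ξ hξ.1
    ⟨∅, isOpen_empty, iUnion_subset fun i => i.elim0, fun _ h => h.elim⟩, T.symm hD.1 hξ.1,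
    hξ.2 _ hD.1]
  simpa [Real.pi_ne_zero] using key

/-- Limits of spheres through a general tuple, with one more marked point. -/
theorem Tools.cls1 (T : Tools c) (hg : c.Cl m g) (hF : c.Fam fun _ => J)
    {x : ℕ → Fin (m + 1) → X} {p : Fin (m + 1) → X} (hx : Tendsto x atTop (𝓝 p)) {z : ℕ → X}
    {w : X} (hz : Tendsto z atTop (𝓝 w)) (S : ℕ → TC c J hJ)
    (hS : ∀ n α, Closed α → per (S n).u α = g α) (h1 : ∀ n j, x n j ∈ (S n).img)
    (h2 : ∀ n, z n ∈ (S n).img) (hp : c.Gen J p) :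
    ∃ C : TC c J hJ, (∀ α, Closed α → per C.u α = g α) ∧ (∀ j, p j ∈ C.img) ∧ w ∈ C.img := by
  classical
  obtain ⟨r, C, hC, hy⟩ := T.grom _ hF (fun _ => 0) 0 tendsto_const_nhds S g hS (m + 1)
    (fun n => Fin.cons (z n) (x n)) (Fin.cons w p) (fun n => Fin.cases (h2 n) (h1 n))
    (tendsto_pi_nhds.2 (Fin.cases hz (tendsto_pi_nhds.1 hx)))
  choose C' hs hi d hd hper using fun i => T.simple _ _ (C i)
  choose z hz hc using fun i => T.nat _ _ (C' i)
  choose i hi' using fun j : Fin (m + 1) => hy j.succ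
  have hm := hg.1
  have e1 : ∑ l, d l * z l = m + 2 := by
    have : (∑ l, (d l : ℝ) * z l) = m + 2 := by
      rw [← hg.2.1, hC _ c.hom, Finset.mul_sum]
      refine Finset.sum_congr rfl fun l _ => ?_
      rw [hper l _ c.hom, ← hc, OC.c1]; ring
    exact_mod_cast this
  have two : ∀ a b, a ≠ b → d a * z a + d b * z b ≤ m + 2 := fun a b hab => by
    rw [← e1, ← Finset.sum_pair (f := fun l => d l * z l) hab]
    exact Finset.sum_le_sum_of_subset (Finset.subset_univ _)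
  have le : ∀ a, z a ≤ d a * z a := fun a => Nat.le_mul_of_pos_left _ (hd a)
  have g2 : ∀ j, 2 ≤ z (i j) := fun j => by
    have := (hp.2 _ (C' (i j)) (hs _)).1 j (by rw [hi]; exact hi' j)
    rw [hc] at this
    exact_mod_cast this
  have same : ∀ j, i j = i 0 := fun j => by
    by_contra hne
    have := two _ _ hne
    have := le (i j); have := le (i 0); have := g2 j; have := g2 0
    omega
  have big : m + 2 ≤ z (i 0) := by
    have := (hp.2 _ (C' (i 0)) (hs _)).2 fun j => by rw [hi, ← same j]; exact hi' j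
    rw [hc] at this
    have h2 : m + 1 < z (i 0) := by exact_mod_cast this
    omega
  have only : ∀ l, l = i 0 := fun l => by
    by_contra hne
    have := two _ _ hne
    have := le l; have := le (i 0); have := hz l
    omega
  obtain ⟨l, hl⟩ := hy 0
  refine ⟨C (i 0), fun α hα => ?_, fun j => by rw [← same j]; exact hi' j, only l ▸ hl⟩
  rw [hC _ hα, Finset.sum_eq_single (i 0) (fun l _ hl => (hl (only l)).elim) (by simp)]

theorem Tools.sc_of [ConnectedSpace X] (T : Tools c) (h5 : 5 ≤ c.κ * c.κ * c.Q c.om c.om)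
    (S : TC c c.J0 c.tame0) (hS : S.Emb) (hm : m ≤ 1) (hc : S.c1 = m + 2)
    {γ : X → Fin (m + 1) → X} (hγ : Continuous γ) (hj : ∀ x, ∃ j, γ x j = x) {A K : Set X}
    (hA : Thn A) (gen : ∀ q ∉ A, c.Gen c.J0 (γ q)) (hK : IsCompact K)
    (lift : ∀ (Y : Type) [TopologicalSpace Y] (π : Y → X), IsCoveringMap π → Flat.Lift π K)
    (hk : ∀ q ∉ A, ∀ C : TC c c.J0 c.tame0, C.Emb → (∀ α, Closed α → per C.u α = per S.u α) →
      (∀ j, γ q j ∈ C.img) → ∃ k, C.img ∩ K = {k}) : SimplyConnectedSpace X := by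
  classical
  have := ChartedSpace.secondCountable_of_sigmaCompact E X
  have := ChartedSpace.locallyConnectedSpace E X
  have hm' : (m : ℝ) ≤ 1 := by exact_mod_cast hm
  have hg : c.Cl m (per S.u) := by
    obtain ⟨-, η, hη, he, -⟩ := T.small h5 S hS.simple (by linarith)
    exact ⟨hm, hc, η, hη, by rw [he, hc]; ring⟩
  obtain ⟨F, hF, -, -, h2⟩ := T.path c.J0 c.tame0
  obtain rfl : F = fun _ => c.J0 := funext fun τ => funext fun x => h2 x rfl τ
  have ex : ∀ q, ∃ C : TC c c.J0 c.tame0, q ∉ A → C.Emb ∧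
      (∀ α, Closed α → per C.u α = per S.u α) ∧ ∀ j, γ q j ∈ C.img := fun q => by
    by_cases hq : q ∈ A
    · exact ⟨S, fun h => (h hq).elim⟩
    obtain ⟨_, C, hC, hx⟩ := T.all h5 hg hF isOpen_univ isPreconnected_univ (fun _ _ _ => rfl)
      (τ := 0) (p := fun j => S.u (j : ℕ)) (fun i j e => Fin.ext (Nat.cast_injective (TC.inj hS e)))
      (fun _ => trivial) ⟨_, S, fun _ _ => rfl, fun j => by rw [TC.img_eq]; exact Or.inl ⟨_, rfl⟩⟩
      (gen q hq) fun _ => trivial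
    obtain ⟨C', e1, e2, e3⟩ := T.irr h5 hg C hC
    exact ⟨C', fun _ => ⟨e1, e2, fun j => e3 ▸ hx j⟩⟩
  choose C hC using ex
  refine sc_of_allFlat (Flat.allFlat_of (fun B => T.conn A B hA) (T.dns A hA) fun Y _ π cov sj => ?_)
  obtain ⟨q₀, hq₀⟩ := (T.dns A hA).nonempty
  obtain ⟨k, hk₀⟩ := hk q₀ hq₀ _ (hC q₀ hq₀).1 (hC q₀ hq₀).2.1 (hC q₀ hq₀).2.2
  obtain ⟨y, rfl⟩ := sj k
  obtain ⟨s, s1, s2, -⟩ := lift Y π cov y (show π y ∈ (C q₀).img ∩ K from hk₀ ▸ rfl).2
  refine Flat.sec_of_family cov hK s1 s2 (fun q => (C q).img) fun q hq =>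
    ⟨(C q).compact, (C q).conn, ?_, hk q hq _ (hC q hq).1 (hC q hq).2.1 (hC q hq).2.2,
      TC.lift (hC q hq).1 cov, fun U hU hs => ?_⟩
  · obtain ⟨j, e⟩ := hj q
    have := (hC q hq).2.2 j
    rwa [e] at this
  by_contra hn
  obtain ⟨x, hx, hx'⟩ := exists_seq_forall_of_frequently (not_eventually.1 hn)
  simp only [Classical.not_imp, not_subset] at hx'
  choose xa z z1 z2 using hx'
  obtain ⟨w, hw, φ, hφ, hl⟩ := hU.isClosed_compl.isCompact.tendsto_subseq z2
  obtain ⟨D, d1, d2, d3⟩ := T.cls1 hg hF ((hγ.tendsto q).comp (hx.comp hφ.tendsto_atTop)) hl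
    (fun n => C (x (φ n))) (fun n => (hC _ (xa _)).2.1) (fun n => (hC _ (xa _)).2.2)
    (fun n => z1 _) (gen q hq)
  obtain ⟨D', e1, e2, e3⟩ := T.irr h5 hg D d1
  have hc' : (C q).c1 = m + 2 := by rw [← hc, OC.c1, (hC q hq).2.1 _ c.hom, OC.c1]
  obtain ⟨-, η, hη, he, hp⟩ := T.small h5 (C q) (hC q hq).1.simple (by linarith)
  refine hw (hs ?_)
  by_contra hw'
  have := hp D' e1.simple (fun h => hw' (h (e3 ▸ d3))) (Finset.univ.image (γ q)) fun x hx => by
    obtain ⟨j, -, rfl⟩ := Finset.mem_image.1 hx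
    exact ⟨(hC q hq).2.2 j, e3 ▸ d2 j⟩
  rw [Finset.card_image_of_injective _ (gen q hq).1, e2 _ hη.1, ← (hC q hq).2.1 _ hη.1, he,
    hc'] at this
  simp only [Finset.card_univ, Fintype.card_fin] at this
  push_cast at this
  linarith

/-- A sphere of square one. -/
theorem Tools.sc_three [ConnectedSpace X] (T : Tools c) (h5 : 5 ≤ c.κ * c.κ * c.Q c.om c.om)
    (S : TC c c.J0 c.tame0) (hS : S.Emb) (hc : S.c1 = 3) : SimplyConnectedSpace X := by
  obtain ⟨p, hp⟩ := (T.dns _ (T.b1 h5 c.J0)).nonempty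
  refine T.sc_of h5 S hS (m := 1) le_rfl (by rw [hc]; norm_num) (γ := fun x => ![p, x])
    (by fun_prop) (fun x => ⟨1, rfl⟩) (T.thn1 h5 hp) (fun q hq => not_not.1 hq)
    (isCompact_singleton (x := p)) (fun Y _ π _ y hy => ⟨fun _ => y, continuousOn_const,
      fun x hx => hy.trans hx.symm, rfl⟩) fun q _ C _ _ h => ⟨p, ?_⟩
  exact inter_eq_right.2 (singleton_subset_iff.2 (h 0))

/-- Two spheres of square zero that meet. -/
theorem Tools.sc_two [ConnectedSpace X] (T : Tools c) (h5 : 5 ≤ c.κ * c.κ * c.Q c.om c.om)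
    (S S' : TC c c.J0 c.tame0) (hS : S.Emb) (hS' : S'.Emb) (hc : S.c1 = 2) (hc' : S'.c1 = 2)
    {η} (hη : c.Dl (per S.u) η) (h0 : per S'.u η ≠ 0) : SimplyConnectedSpace X := by
  classical
  obtain ⟨-, η₁, hη₁, he, -⟩ := T.small h5 S hS.simple (by linarith)
  obtain ⟨-, η', hη', he', hp⟩ := T.small h5 S' hS'.simple (by linarith)
  have e0 : per S.u η' = per S'.u η := by
    rw [← hη.2 _ hη'.1, T.symm hη.1 hη'.1, hη'.2 _ hη.1]
  have lt : per S.u η' < 2 := by
    obtain ⟨co, h⟩ := T.co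
    have hx := hη₁.1.add hη'.1
    have hκ : 0 < c.κ * c.κ := mul_pos c.hκ c.hκ
    have hQ : 0 < c.Q c.om c.om := pos_of_mul_pos_left (by linarith) hκ.le
    have H := ex_lor_hodge (co (η₁ + η')) (co c.om) (by rwa [← h _ _ c.hom c.hom])
    rw [← h _ _ c.hom c.hom, ← h _ _ hx hx, ← h _ _ hx c.hom, Q_add_left hη₁.1.1 hη'.1.1 hx.1,
      Q_add_left hη₁.1.1 hη'.1.1 c.hom.1, Q_add_right hη₁.1.1 hη₁.1.1 hη'.1.1,
      Q_add_right hη'.1.1 hη₁.1.1 hη'.1.1, Q_symm η' η₁, hη₁.2 _ hη₁.1, hη₁.2 _ hη'.1,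
      hη'.2 _ hη'.1, hη₁.2 _ c.hom, hη'.2 _ c.hom, he, he', hc, hc'] at H
    have H2 := mul_le_mul_of_nonneg_left H hκ.le
    rw [OC.c1] at hc hc'
    have e : c.κ * c.κ * (per S.u c.om + per S'.u c.om) ^ 2 = 16 := by
      linear_combination (c.κ * (per S.u c.om + per S'.u c.om) + 4) * (hc + hc')
    by_contra hn
    nlinarith [not_lt.1 hn]
  refine T.sc_of h5 S hS (m := 0) zero_le_one (by simpa using hc) (γ := fun x _ => x)
    (by fun_prop) (fun x => ⟨0, rfl⟩) ((T.thn0 h5 c.J0).union S'.thn)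
    (fun q hq => not_not.1 fun h => hq (Or.inl h)) S'.compact (fun Y _ π cov => TC.lift hS' cov)
    fun q hq C h1 h2 h3 => ?_
  obtain ⟨k, hk⟩ : (C.img ∩ S'.img).Nonempty := by
    rw [← not_disjoint_iff_nonempty_inter]
    exact fun hd => h0 (by
      rw [← e0, ← h2 _ hη'.1, T.per_disj S' C hS'.simple h1.simple hη' hd.symm])
  refine ⟨k, eq_singleton_iff_unique_mem.2 ⟨hk, fun k' hk' => ?_⟩⟩
  by_contra hne
  have := hp C h1.simple (fun h => hq (Or.inr (h (h3 0)))) {k', k} fun x hx => by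
    rcases Finset.mem_insert.1 hx with rfl | hx
    · exact hk'.symm
    · exact Finset.mem_singleton.1 hx ▸ hk.symm
  rw [Finset.card_pair hne, h2 _ hη'.1] at this
  push_cast at this
  linarith

theorem Tools.simplyConnected [ConnectedSpace X] (T : Tools c) {r : ℕ}
    (S : Fin r → OC (Orb.triv c c.J0 c.tame0)) (hS : ∀ i, (S i).Emb)
    (c1 : ∀ i, (S i).c1 = 2 ∨ (S i).c1 = 3) (deg : r + 3 ≤ ∑ i, (S i).c1)
    (dual : ∀ α, Closed α → ∑ i, per (S i).u α = c.κ * c.Q c.om α) : SimplyConnectedSpace X := by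
  have hr : (2 : ℝ) ≤ r := by
    have : ∑ i, (S i).c1 ≤ ∑ _i : Fin r, (3 : ℝ) :=
      Finset.sum_le_sum fun i _ => by rcases c1 i with h | h <;> linarith
    simp only [Finset.sum_const, Finset.card_univ, Fintype.card_fin, nsmul_eq_mul] at this
    have h : (1 : ℝ) < r := by linarith
    exact_mod_cast (show 2 ≤ r by exact_mod_cast h)
  have h5 : 5 ≤ c.κ * c.κ * c.Q c.om c.om := by
    rw [mul_assoc, ← dual _ c.hom, Finset.mul_sum]
    exact le_trans (by linarith) deg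
  by_cases h3 : ∃ i, (S i).c1 = 3
  · obtain ⟨i, hi⟩ := h3
    exact T.sc_three h5 (S i) (hS i) hi
  have h2 : ∀ i, (S i).c1 = 2 := fun i => (c1 i).resolve_right fun h => h3 ⟨i, h⟩
  let i : Fin r := ⟨0, by exact_mod_cast (show (0 : ℝ) < r by linarith)⟩
  obtain ⟨η, hη, -⟩ := T.int _ _ (S i) (hS i).simple
  obtain ⟨j, -, hj⟩ := Finset.exists_ne_zero_of_sum_ne_zero (s := Finset.univ)
    (f := fun j => per (S j).u η) (by
      rw [dual _ hη.1, Q_symm, hη.2 _ c.hom, ← OC.c1, h2]; norm_num)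
  exact T.sc_two h5 (S i) (S j) (hS i) (hS j) (h2 i) (h2 j) hη hj

end Pool.Agent.Lib.MP_1c0d65_gt.PW
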