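import Pool.Agent.Lib.MP_1c0d65_gt.E.Flat

/-! A space on which all coverings have sections is simply connected; sections from families of
compact sets. -/

set_option autoImplicit false

open scoped Topology
open Set Filter Function

noncomputable section

namespace Pool.Agent.Lib.MP_1c0d65_gt.Flat

variable {X : Type} [TopologicalSpace X]

/-- Every locally constant cocycle is a coboundary. -/
def AllFlat (X : Type) [TopologicalSpace X] : Prop :=
  ∀ (A : Type) [Group A] (V : X → Set X), (∀ x, IsOpen (V x)) → (∀ x, x ∈ V x) →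
    ∀ c : X → X → X → A, (∀ x y, ∀ z ∈ V x ∩ V y, ∀ᶠ w in 𝓝 z, c x y w = c x y z) →
    (∀ x y w, ∀ z ∈ V x ∩ V y ∩ V w, c x y z * c y w z = c x w z) →
    ∃ b : X → X → A, (∀ x, ∀ z ∈ V x, ∀ᶠ w in 𝓝 z, b x w = b x z) ∧
      ∀ x y, ∀ z ∈ V x ∩ V y, c x y z = b x z * (b y z)⁻¹

section
open Path.Homotopic.Quotient
variable {x y z : X}

theorem pq_ts (a : Path.Homotopic.Quotient x y) (d : Path.Homotopic.Quotient y z) :
    (a.trans d).trans d.symm = a := by rw [trans_assoc, trans_symm, trans_refl]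

theorem pq_st (a : Path.Homotopic.Quotient x y) (d : Path.Homotopic.Quotient z y) :
    (a.trans d.symm).trans d = a := by rw [trans_assoc, symm_trans, trans_refl]

theorem pq_inv (a : Path.Homotopic.Quotient x y) (d : Path.Homotopic.Quotient y z) :
    (a.trans d).symm = d.symm.trans a.symm := by
  have : (a.trans d).trans (d.symm.trans a.symm) = refl x := by
    rw [← trans_assoc, pq_ts, trans_symm]
  rw [← trans_refl (a.trans d).symm, ← this, ← trans_assoc, symm_trans, refl_trans]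

theorem pq_can (f g : Path.Homotopic.Quotient x x) (e : f.trans (refl x).symm = f.trans g.symm) :
    g = refl x := by
  have e1 := congrArg (fun k => trans f.symm (trans k g)) e
  rwa [pq_st, symm_trans, ← refl_trans (refl x).symm, trans_symm, trans_refl, ← trans_assoc,
    symm_trans, refl_trans] at e1

end

open Path.Homotopic.Quotient in
theorem AllFlat.simplyConnected [PathConnectedSpace X] [LocallyPathConnectedSpace X]
    (H : AllFlat X) (V : X → Set X) (hV : ∀ x, IsOpen (V x)) (hx : ∀ x, x ∈ V x)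
    (hp : ∀ x, ∀ z ∈ V x, JoinedIn (V x) x z)
    (hh : ∀ x a b (δ δ' : Path a b), (∀ t, δ t ∈ V x) → (∀ t, δ' t ∈ V x) → δ.Homotopic δ') :
    SimplyConnectedSpace X := by
  classical
  refine simply_connected_iff_loops_nullhomotopic.2 ⟨inferInstance, fun p γ₀ => ?_⟩
  let h : ∀ x z : X, Path.Homotopic.Quotient p z := fun x z =>
    if hz : z ∈ V x then (mk (PathConnectedSpace.somePath p x)).trans (mk (hp x z hz).somePath)
    else mk (PathConnectedSpace.somePath p z)
  have key : ∀ x z z' (δ : Path z z'), (∀ t, δ t ∈ V x) → (h x z).trans (mk δ) = h x z' :=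
    fun x z z' δ hδ => by
      have h0 : z ∈ V x := δ.source ▸ hδ 0
      have h1 : z' ∈ V x := δ.target ▸ hδ 1
      simp only [h, dif_pos h0, dif_pos h1]
      rw [trans_assoc, ← mk_trans, eq.2 (hh x _ _ _ (hp x z' h1).somePath (fun t => ?_)
        (hp x z' h1).somePath_mem)]
      have : ((hp x z h0).somePath.trans δ) t ∈ range ((hp x z h0).somePath.trans δ) := ⟨t, rfl⟩
      rw [Path.trans_range] at this
      rcases this with ⟨s, e⟩ | ⟨s, e⟩
      · exact e ▸ (hp x z h0).somePath_mem s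
      · exact e ▸ hδ s
  obtain ⟨b, b1, b2⟩ := H (FundamentalGroup X p) V hV hx (fun x y z => (h y z).trans (h x z).symm)
    (fun x y z hz => by
      filter_upwards [pathComponentIn_mem_nhds (((hV x).inter (hV y)).mem_nhds hz)] with w hw
      rw [← key x z w hw.somePath fun t => (hw.somePath_mem t).1,
        ← key y z w hw.somePath fun t => (hw.somePath_mem t).2, pq_inv, ← trans_assoc, pq_ts])
    fun x y w z _ => by rw [FundamentalGroup.mul_def, ← trans_assoc, pq_st]
  have e : ∀ x y, ∀ z ∈ V x ∩ V y, trans (b x z) (h x z) = trans (b y z) (h y z) :=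
    fun x y z hz => by
      have := b2 x y z hz
      rw [FundamentalGroup.mul_def, FundamentalGroup.inv_def] at this
      rw [← pq_st (h y z) (h x z), this, ← trans_assoc, ← trans_assoc, trans_symm, refl_trans]
  let Φ : ∀ z, Path.Homotopic.Quotient p z := fun z => trans (b z z) (h z z)
  have loc : ∀ z, ∃ W ∈ 𝓝 z, ∀ a a' (δ : Path a a'), (∀ t, δ t ∈ W) → (Φ a).trans (mk δ) = Φ a' :=
    fun z => ⟨_, ((b1 z z (hx z)).and ((hV z).mem_nhds (hx z))), fun a a' δ hδ => by
      have h0 : b z a = b z z ∧ a ∈ V z := δ.source ▸ hδ 0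
      have h1 : b z a' = b z z ∧ a' ∈ V z := δ.target ▸ hδ 1
      simp only [Φ]
      rw [e a z a ⟨hx a, h0.2⟩, e a' z a' ⟨hx a', h1.2⟩, trans_assoc, key z a a' δ fun t => (hδ t).2,
        h0.1, h1.1]⟩
  have lc : IsLocallyConstant fun t : unitInterval => (Φ (γ₀ t)).trans (mk (γ₀.subpath 0 t)).symm := by
    refine (IsLocallyConstant.iff_eventually_eq _).2 fun t₀ => ?_
    obtain ⟨W, hW, hl⟩ := loc (γ₀ t₀)
    filter_upwards [ordConnectedComponent_mem_nhds.2 (γ₀.continuous.continuousAt hW)] with t ht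
    rw [← hl _ _ (γ₀.subpath t₀ t) fun s => ?_, ← eq.2 ⟨Path.Homotopy.subpathTransSubpath γ₀ 0 t₀ t⟩,
      mk_trans, pq_inv, ← trans_assoc, pq_ts]
    have : γ₀.subpath t₀ t s ∈ range (γ₀.subpath t₀ t) := ⟨s, rfl⟩
    rw [Path.range_subpath] at this
    obtain ⟨r, hr, e⟩ := this
    exact e ▸ mem_ordConnectedComponent.1 ht hr
  have h01 := lc.apply_eq_of_preconnectedSpace 0 1
  have fin : ∀ {a a' : X} (ha : a = p) (ha' : a' = p), (Φ a).trans (refl a).symm =
      (Φ a').trans (mk (γ₀.cast ha ha')).symm → mk γ₀ = refl p := fun ha ha' e => by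
    subst ha ha'
    exact pq_can _ _ e
  refine eq.1 (fin γ₀.source γ₀.target ?_)
  simpa only [Path.subpath_self, Path.subpath_zero_one, mk_refl] using h01

/-- It is enough to find sections off a set that does not separate. -/
theorem allFlat_of [LocallyConnectedSpace X] {S : Set X}
    (hS : ∀ B, IsOpen B → IsPreconnected B → IsPreconnected (B \ S)) (hd : Dense Sᶜ)
    (H : ∀ (Y : Type) [TopologicalSpace Y] (π : Y → X), IsCoveringMap π → Surjective π →
      ∃ τ : X → Y, ∀ q ∉ S, π (τ q) = q ∧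
        ∃ t : X → Y, ContinuousAt t q ∧ ∀ᶠ w in 𝓝 q, w ∉ S → τ w = t w) : AllFlat X := by
  intro A _ V hV hx c hc hco
  let : TopologicalSpace A := ⊥
  have : DiscreteTopology A := ⟨rfl⟩
  let Z : FiberBundleCore X X A :=
    { baseSet := V
      isOpen_baseSet := hV
      indexAt := id
      mem_baseSet_at := hx
      coordChange := fun i j x v => c j i x * v
      coordChange_self := fun i x h v => by
        rw [mul_eq_left.1 (hco i i i x ⟨⟨h, h⟩, h⟩), one_mul]
      continuousOn_coordChange := fun i j p hp => by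
        refine ContinuousAt.continuousWithinAt ?_
        have h1 : ∀ᶠ q in 𝓝 p, c j i q.1 = c j i p.1 :=
          continuousAt_fst.eventually (hc j i p.1 ⟨hp.1.2, hp.1.1⟩)
        have h2 : ∀ᶠ q : X × A in 𝓝 p, q.2 = p.2 :=
          continuousAt_snd.eventually ((isOpen_discrete {p.2}).mem_nhds rfl)
        refine (continuousAt_const (y := c j i p.1 * p.2)).congr ?_
        filter_upwards [h1, h2] with q e1 e2
        rw [e1, e2]
      coordChange_comp := fun i j k x h v => by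
        rw [← mul_assoc, hco k j i x ⟨⟨h.2, h.1.2⟩, h.1.1⟩] }
  have cov : IsCoveringMap Z.proj :=
    IsCoveringMap.mk _ (fun _ => A) Z.localTrivAt Z.mem_localTrivAt_baseSet
  obtain ⟨F, hF⟩ := H _ _ cov fun x => ⟨⟨x, (1 : A)⟩, rfl⟩
  choose b hb using fun x => extend (S := S) (hV x) hS hd
    (f := fun z => (Z.localTriv x (F z)).2) fun z hz => by
      obtain ⟨h0, t, h1, h2⟩ := hF z hz.2
      have h3 := h2.self_of_nhds hz.2
      have h4 : ContinuousAt (Z.localTriv x) (t z) :=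
        (Z.localTriv x).continuousAt (by rw [Z.mem_localTriv_source, ← h3]; exact (show (F z).1 = z from h0).symm ▸ hz.1)
      filter_upwards [h2, (continuousAt_snd.comp (h4.comp h1)).eventually
        ((isOpen_discrete {(Z.localTriv x (t z)).2}).mem_nhds rfl)] with w w1 w2 w3
      rw [w1 w3, h3]
      exact w2
  refine ⟨b, fun x z hz => (hb x z hz).1, fun x y z hz => ?_⟩
  obtain ⟨v, hv, ⟨e1, e2⟩, e3, e4⟩ := ((hd z : z ∈ closure Sᶜ) |> mem_closure_iff_frequently.1
    |>.and_eventually (((hb x z hz.1).2.and (hb y z hz.2).2).and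
      ((hc x y z hz).and (((hV x).inter (hV y)).mem_nhds hz)))).exists
  obtain ⟨a, e⟩ : ∃ a : A, ∀ x, (Z.localTriv x (F v)).2 = c x v v * a := ⟨(F v).2, fun x => by
    rw [Z.localTriv_apply]
    change c x (F v).1 (F v).1 * _ = _
    rw [show (F v).1 = v from (hF v hv).1]⟩
  rw [← e1 hv, ← e2 hv, ← e3, e, e, ← hco x y v v ⟨e4, hx v⟩]
  group

variable {Y : Type} [TopologicalSpace Y] {π : Y → X}

/-- There is a section over `D` through every point. -/
def Lift (π : Y → X) (D : Set X) : Prop := ∀ y, π y ∈ D →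
  ∃ s : X → Y, ContinuousOn s D ∧ (∀ x ∈ D, π (s x) = x) ∧ s (π y) = y

theorem sec_of_family [T2Space X] (cov : IsCoveringMap π) {S K : Set X} (hK : IsCompact K)
    {σ : X → Y} (h1 : ContinuousOn σ K) (h2 : ∀ x ∈ K, π (σ x) = x) (C : X → Set X)
    (hC : ∀ q ∉ S, IsCompact (C q) ∧ IsPreconnected (C q) ∧ q ∈ C q ∧ (∃ k, C q ∩ K = {k}) ∧
      Lift π (C q) ∧ ∀ U, IsOpen U → C q ⊆ U → ∀ᶠ w in 𝓝 q, w ∉ S → C w ⊆ U) :
    ∃ τ : X → Y, ∀ q ∉ S, π (τ q) = q ∧
      ∃ t : X → Y, ContinuousAt t q ∧ ∀ᶠ w in 𝓝 q, w ∉ S → τ w = t w := by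
  have H : ∀ q, ∃ (k : X) (s : X → Y), q ∉ S → C q ∩ K = {k} ∧ ContinuousOn s (C q) ∧
      (∀ x ∈ C q, π (s x) = x) ∧ s k = σ k := fun q => by
    by_cases hq : q ∈ S
    · exact ⟨q, σ, fun h => (h hq).elim⟩
    obtain ⟨-, -, -, ⟨k, hk⟩, hl, -⟩ := hC q hq
    have hk' : k ∈ C q ∩ K := hk ▸ rfl
    obtain ⟨s, s1, s2, s3⟩ := hl (σ k) ((h2 k hk'.2).symm ▸ hk'.1)
    exact ⟨k, s, fun _ => ⟨hk, s1, s2, by rwa [h2 k hk'.2] at s3⟩⟩
  choose k s H using H
  refine ⟨fun q => s q q, fun q hq => ⟨(H q hq).2.2.1 q (hC q hq).2.2.1, ?_⟩⟩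
  obtain ⟨g1, g2, g3, g4⟩ := H q hq
  have mix : ∀ a ∈ K, ∀ a' ∈ C q, π (σ a) = π (s q a') → σ a = s q a' := fun a ha a' ha' e => by
    rw [h2 a ha, g3 a' ha'] at e
    subst e
    have : a = k q := show a ∈ ({k q} : Set X) from g1 ▸ ⟨ha', ha⟩
    rw [this, g4]
  obtain ⟨N, n1, n2, n3⟩ := InjOn.exists_isOpen_superset (f := π) (s := σ '' K ∪ s q '' C q) (by
      rintro _ (⟨a, ha, rfl⟩ | ⟨a, ha, rfl⟩) _ (⟨a', ha', rfl⟩ | ⟨a', ha', rfl⟩) e
      · rw [h2 a ha, h2 a' ha'] at e; rw [e]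
      · exact mix a ha a' ha' e
      · exact (mix a' ha' a ha e.symm).symm
      · rw [g3 a ha, g3 a' ha'] at e; rw [e])
    ((hK.image_of_continuousOn h1).union ((hC q hq).1.image_of_continuousOn g2))
    (fun y _ => cov.continuous.continuousAt) fun y _ =>
      isLocallyInjective_iff_nhds.1 cov.isLocalHomeomorph.isLocallyInjective y
  have : Nonempty Y := ⟨σ q⟩
  have ht : ∀ x ∈ π '' N, ContinuousAt (invFunOn π N) x := by
    rintro _ ⟨y, hy, rfl⟩ W hW
    rw [n3.leftInvOn_invFunOn hy] at hW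
    refine mem_map.2 (mem_of_superset
      (cov.isOpenMap.image_mem_nhds (inter_mem hW (n1.mem_nhds hy))) ?_)
    rintro _ ⟨y', hy', rfl⟩
    rw [mem_preimage, n3.leftInvOn_invFunOn hy'.2]
    exact hy'.1
  have hU : C q ⊆ π '' N := fun x hx => ⟨_, n2 (Or.inr ⟨x, hx, rfl⟩), g3 x hx⟩
  refine ⟨invFunOn π N, ht q (hU (hC q hq).2.2.1), ?_⟩
  filter_upwards [(hC q hq).2.2.2.2.2 _ (cov.isOpenMap _ n1) hU] with w w1 hw
  obtain ⟨f1, f2, f3, f4⟩ := H w hw
  have hk : k w ∈ C w ∩ K := f1 ▸ rfl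
  refine cov.eqOn_of_comp_eqOn (hC w hw).2.1 f2
    (fun x hx => (ht x (w1 hw hx)).continuousWithinAt)
    (fun x hx => (f3 x hx).trans (invFunOn_eq (w1 hw hx)).symm) hk.1 ?_ (hC w hw).2.2.1
  rw [f4]
  conv_rhs => rw [← h2 _ hk.2]
  exact (n3.leftInvOn_invFunOn (n2 (Or.inl ⟨_, hk.2, rfl⟩))).symm

theorem contOn_image [T2Space X] {T : Type} [TopologicalSpace T] {f : T → X} {s : X → Y}
    {K : Set T} (hK : IsCompact K) (hf : Continuous f) (h : Continuous (s ∘ f)) :
    ContinuousOn s (f '' K) := continuousOn_iff_isClosed.2 fun t ht =>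
  ⟨f '' (K ∩ (s ∘ f) ⁻¹' t), ((hK.inter_right (ht.preimage h)).image hf).isClosed, by
    ext x
    constructor
    · rintro ⟨h1, a, ha, rfl⟩
      exact ⟨⟨a, ⟨ha, h1⟩, rfl⟩, a, ha, rfl⟩
    · rintro ⟨⟨a, ha, rfl⟩, h2⟩
      exact ⟨ha.2, h2⟩⟩

omit [TopologicalSpace X] in
theorem sphere_eq {u v : ℂ → X} (uv : ∀ s ≠ 0, v s = u s⁻¹) : range u ∪ {v 0} =
    u '' Metric.closedBall 0 1 ∪ v '' Metric.closedBall 0 1 := by
  refine Subset.antisymm ?_ (union_subset ((image_subset_range _ _).trans subset_union_left) ?_)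
  · rintro _ (⟨a, rfl⟩ | rfl)
    · by_cases h : ‖a‖ ≤ 1
      · exact Or.inl ⟨a, mem_closedBall_zero_iff.2 h, rfl⟩
      · have h0 : a ≠ 0 := fun e => h (by simp [e])
        exact Or.inr ⟨a⁻¹, mem_closedBall_zero_iff.2 (by
          rw [norm_inv]; exact inv_le_one_of_one_le₀ (not_le.1 h).le),
          by rw [uv _ (inv_ne_zero h0), inv_inv]⟩
    · exact Or.inr ⟨0, Metric.mem_closedBall_self zero_le_one, rfl⟩
  · rintro _ ⟨a, -, rfl⟩
    by_cases h : a = 0
    · exact Or.inr (h ▸ rfl)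
    · exact Or.inl ⟨_, (uv a h).symm⟩

/-- A covering is trivial over an embedded sphere. -/
theorem lift_sphere [T2Space X] (cov : IsCoveringMap π) {u v : ℂ → X} (hu : Continuous u)
    (hv : Continuous v) (uv : ∀ s ≠ 0, v s = u s⁻¹) (inj : Injective u) (h0 : v 0 ∉ range u) :
    Lift π (range u ∪ {v 0}) := by
  classical
  have e1 : v 1 = u 1 := by rw [uv 1 one_ne_zero, inv_one]
  have main : ∀ U V : C(ℂ, Y), π ∘ U = u → π ∘ V = v → V 1 = U 1 → ∃ s : X → Y,
      ContinuousOn s (range u ∪ {v 0}) ∧ (∀ x ∈ range u ∪ {v 0}, π (s x) = x) ∧ s ∘ u = U ∧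
        s ∘ v = V := fun U V hU hV e => by
    have h1 : EqOn V (fun s => U s⁻¹) {0}ᶜ := cov.eqOn_of_comp_eqOn
      (isConnected_compl_singleton_of_one_lt_rank
        (Complex.rank_real_complex ▸ Nat.one_lt_ofNat) 0).isPreconnected V.continuous.continuousOn
      (U.continuous.comp_continuousOn continuousOn_inv₀)
      (fun s hs => (congrFun hV s).trans ((uv s hs).trans (congrFun hU _).symm))
      (a := 1) one_ne_zero (by simpa using e)
    let s : X → Y := fun x => if h : x ∈ range u then U h.choose else V 0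
    have su : s ∘ u = U := funext fun a => by
      have h : u a ∈ range u := ⟨a, rfl⟩
      simp only [s, comp_apply, dif_pos h, inj h.choose_spec]
    have sv : s ∘ v = V := funext fun a => by
      by_cases h : a = 0
      · simp only [s, comp_apply, h, dif_neg h0]
      · rw [comp_apply, uv a h, h1 h]
        exact congrFun su _
    refine ⟨s, ?_, ?_, su, sv⟩
    · rw [sphere_eq uv]
      exact (contOn_image (isCompact_closedBall _ _) hu (su ▸ U.continuous)).union_of_isClosed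
        (contOn_image (isCompact_closedBall _ _) hv (sv ▸ V.continuous))
        ((isCompact_closedBall _ _).image hu).isClosed ((isCompact_closedBall _ _).image hv).isClosed
    · rintro _ (⟨a, rfl⟩ | rfl)
      · exact (congrArg π (congrFun su a)).trans (congrFun hU a)
      · exact (congrArg π (congrFun sv 0)).trans (congrFun hV 0)
  rintro y (⟨a, ha⟩ | ha)
  · obtain ⟨U, ⟨u1, u2⟩, -⟩ := cov.existsUnique_continuousMap_lifts ⟨u, hu⟩ a y ha.symm
    obtain ⟨V, ⟨v1, v2⟩, -⟩ := cov.existsUnique_continuousMap_lifts ⟨v, hv⟩ 1 (U 1)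
      ((congrFun u2 1).trans e1.symm)
    obtain ⟨s, s1, s2, s3, -⟩ := main U V u2 v2 v1
    exact ⟨s, s1, s2, by rw [← ha, ← u1]; exact congrFun s3 a⟩
  · obtain ⟨V, ⟨v1, v2⟩, -⟩ := cov.existsUnique_continuousMap_lifts ⟨v, hv⟩ 0 y ha
    obtain ⟨U, ⟨u1, u2⟩, -⟩ := cov.existsUnique_continuousMap_lifts ⟨u, hu⟩ 1 (V 1)
      ((congrFun v2 1).trans e1)
    obtain ⟨s, s1, s2, -, s3⟩ := main U V u2 v2 u1.symm
    exact ⟨s, s1, s2, by rw [mem_singleton_iff.1 ha, ← v1]; exact congrFun s3 0⟩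

end Pool.Agent.Lib.MP_1c0d65_gt.Flat
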